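import Mathlib
import Pool.Agent.Q35.GM.Bas
import Pool.Agent.Q166.EO.GG1

/-!
Project GM of helper35 (MP_1acd66_nt), jobs GM-MIN and GM-AVG (helper237): common lemmas.
-/

set_option autoImplicit false

namespace Pool.Agent.Q237.GM

open Finset Function NumberField
open Pool.Agent.Q35.MM (bx dg mem_bx S1)
open Pool.Agent.Q35.EO (S1g bxg Shp nug mem_bxg)
open Pool.Agent.Q35.GM

section

variable {K : Type} [Field K]

theorem indep {m : ℕ} {l l' : Projectivization K (Fin m → K)} (h : l ≠ l') :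
    LinearIndependent K ![l.rep, l'.rep] :=
  (Projectivization.linearIndependent_pair_iff_ne (D := l) (D' := l')).2 h

/-- The representative of the class of a vector is a multiple of the vector. -/
theorem rep_mul {m : ℕ} {x : Fin m → K} (hx : x ≠ 0) :
    ∃ a : K, a ≠ 0 ∧ (Projectivization.mk K x hx).rep = a • x := by
  obtain ⟨a, ha⟩ := Projectivization.exists_smul_eq_mk_rep K x hx
  exact ⟨(a : K), a.ne_zero, ha.symm⟩

theorem rep_mem {m : ℕ} {W : Submodule K (Fin m → K)} {x : Fin m → K} (hx : x ≠ 0) (hW : x ∈ W) :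
    (Projectivization.mk K x hx).rep ∈ W := by
  obtain ⟨a, -, ha⟩ := rep_mul hx
  rw [ha]
  exact W.smul_mem _ hW

theorem mk_eq_of_mul {m : ℕ} {x : Fin m → K} (hx : x ≠ 0) {l : Projectivization K (Fin m → K)}
    {a : K} (h : a • l.rep = x) : Projectivization.mk K x hx = l := by
  conv_rhs => rw [← l.mk_rep]
  rw [Projectivization.mk_eq_mk_iff']
  exact ⟨a, h⟩

end

section

variable {K : Type} [Field K] [NumberField K]

theorem dg_pos : 0 < dg K := Module.finrank_pos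

theorem height_rep {m : ℕ} (l : Projectivization K (Fin m → K)) :
    Height.mulHeight l.rep = l.mulHeight := by
  conv_rhs => rw [← l.mk_rep]
  rw [Projectivization.mulHeight_mk]

theorem one_le_HW {m : ℕ} (W : Submodule K (Fin m → K)) : 1 ≤ HW W := by
  unfold HW
  exact Height.one_le_mulHeight _

theorem kap_pos : 0 < kap K := by
  unfold kap
  have h : (0 : ℝ) < |(discr K : ℝ)| := by
    rw [abs_pos]
    exact_mod_cast discr_ne_zero K
  positivity

/-- A power of a natural number near a given number. -/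
theorem ex_pow (d : ℕ) (hd : 0 < d) (u : ℝ) (hu : 1 ≤ u) :
    ∃ ρ : ℕ, 1 ≤ ρ ∧ u ≤ (ρ : ℝ) ^ d ∧ (ρ : ℝ) ^ d ≤ 2 ^ d * u := by
  have h0 : (0 : ℝ) ≤ u := by linarith
  have h1 : 1 ≤ u ^ ((d : ℝ)⁻¹) := Real.one_le_rpow hu (by positivity)
  have h2 : (u ^ ((d : ℝ)⁻¹)) ^ d = u := Real.rpow_inv_natCast_pow h0 hd.ne'
  refine ⟨⌈u ^ ((d : ℝ)⁻¹)⌉₊, ?_, ?_, ?_⟩
  · rw [Nat.one_le_ceil_iff]
    linarith
  · calc u = (u ^ ((d : ℝ)⁻¹)) ^ d := h2.symm
      _ ≤ _ := pow_le_pow_left₀ (by linarith) (Nat.le_ceil _) _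
  · have h3 : ((⌈u ^ ((d : ℝ)⁻¹)⌉₊ : ℕ) : ℝ) ≤ 2 * u ^ ((d : ℝ)⁻¹) := by
      have := Nat.ceil_lt_add_one (a := u ^ ((d : ℝ)⁻¹)) (by linarith)
      linarith
    calc ((⌈u ^ ((d : ℝ)⁻¹)⌉₊ : ℕ) : ℝ) ^ d ≤ (2 * u ^ ((d : ℝ)⁻¹)) ^ d :=
          pow_le_pow_left₀ (Nat.cast_nonneg _) h3 _
      _ = 2 ^ d * u := by rw [mul_pow, h2]

theorem mem_bxg_top {m b : ℕ} {x : Fin m → K} :
    x ∈ bxg K ⊤ (fun _ => 1) m b ↔ x ∈ bx K m b := by
  rw [mem_bxg, mem_bx]
  refine forall_congr' fun a => ?_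
  unfold S1g S1
  simp only [Set.mem_setOf_eq, Submodule.mem_top, true_and, one_mul]
  refine and_congr_left fun _ => ?_
  constructor
  · rintro ⟨y, hy⟩
    rw [← hy]
    exact y.isIntegral_coe
  · intro h
    exact ⟨⟨x a, h⟩, rfl⟩

end

end Pool.Agent.Q237.GM
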