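import Mathlib
import Pool.Agent.Q237.GM.Bs
import Pool.Agent.Q166.EO.GG2
import Pool.Agent.Q151.LO.Rep

/-!
Project GM of helper35 (MP_1acd66_nt), job GM-AVG (helper237): the function `Λ` and the decomposition of
the lattice points of a plane along its lines.
-/

set_option autoImplicit false

namespace Pool.Agent.Q237.GM

open Finset Function NumberField MeasureTheory
open Pool.Agent.Q35.MM (bx dg mem_bx S1)
open Pool.Agent.Q35.EO (S1g bxg Shp nug mem_bxg S_UN)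
open Pool.Agent.Q35.GM
open Pool.Agent.Q166.EO (smul_inj mul_fin pts_fin bxg_sub_bx kap_int absNorm_ge ideal_fin)
open Pool.Agent.Q166.EO renaming kap → kp

section

variable {K : Type} [Field K] [NumberField K]

theorem lm_fin (u : ℝ) :
    {𝔟 : Ideal (𝓞 K) | 𝔟 ≠ ⊥ ∧ (Ideal.absNorm 𝔟 : ℝ) ≤ u}.Finite :=
  (ideal_fin u).subset fun _ h => h.2

variable (K) in
/-- The function `Λ`. -/
noncomputable def Lm (w u : ℝ) : ℝ :=
  w * ∑ 𝔟 ∈ (lm_fin (K := K) u).toFinset,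
    Real.log (u / (Ideal.absNorm 𝔟 : ℝ)) ^ Units.rank K

theorem mem_lm {u : ℝ} {𝔟 : Ideal (𝓞 K)} :
    𝔟 ∈ (lm_fin (K := K) u).toFinset ↔ 𝔟 ≠ ⊥ ∧ (Ideal.absNorm 𝔟 : ℝ) ≤ u := by
  rw [Set.Finite.mem_toFinset]
  exact Iff.rfl

theorem lm_term {u : ℝ} {𝔟 : Ideal (𝓞 K)} (h : 𝔟 ∈ (lm_fin (K := K) u).toFinset) :
    0 ≤ Real.log (u / (Ideal.absNorm 𝔟 : ℝ)) := by
  rw [mem_lm] at h
  have h1 := absNorm_ge h.1
  refine Real.log_nonneg ?_
  rw [one_le_div (by linarith)]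
  exact h.2

/-- The right side of the unfolding. -/
theorem lm_eq (w : ℝ) {U h : ℝ} (hh : 0 < h) :
    w * ∑ᶠ 𝔟 ∈ {𝔟 : Ideal (𝓞 K) | 𝔟 ≠ ⊥ ∧ (Ideal.absNorm 𝔟 : ℝ) * h ≤ U},
      Real.log (U / ((Ideal.absNorm 𝔟 : ℝ) * h)) ^ Units.rank K = Lm K w (U / h) := by
  unfold Lm
  have e1 : {𝔟 : Ideal (𝓞 K) | 𝔟 ≠ ⊥ ∧ (Ideal.absNorm 𝔟 : ℝ) * h ≤ U} =
      {𝔟 : Ideal (𝓞 K) | 𝔟 ≠ ⊥ ∧ (Ideal.absNorm 𝔟 : ℝ) ≤ U / h} := by
    ext 𝔟
    simp only [Set.mem_setOf_eq]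
    rw [le_div_iff₀ hh]
  rw [e1, finsum_mem_eq_finite_toFinset_sum _ (lm_fin (U / h))]
  congr 1
  refine Finset.sum_congr rfl fun 𝔟 _ => ?_
  rw [div_div, mul_comm h]

theorem lm_mono {w : ℝ} (hw : 0 ≤ w) : Monotone (Lm K w) := by
  intro u u' h
  unfold Lm
  refine mul_le_mul_of_nonneg_left ?_ hw
  have h1 : (lm_fin (K := K) u).toFinset ⊆ (lm_fin (K := K) u').toFinset := by
    intro 𝔟 hb
    rw [mem_lm] at hb ⊢
    exact ⟨hb.1, hb.2.trans h⟩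
  refine le_trans (Finset.sum_le_sum fun 𝔟 hb => ?_)
    (Finset.sum_le_sum_of_subset_of_nonneg h1 fun 𝔟 hb _ => pow_nonneg (lm_term hb) _)
  refine pow_le_pow_left₀ (lm_term hb) ?_ _
  have hb' := mem_lm.1 hb
  have h2 := absNorm_ge hb'.1
  refine Real.log_le_log (div_pos (by linarith) (by linarith)) ?_
  gcongr

theorem lm_zero (w : ℝ) {u : ℝ} (h : u < 1) : Lm K w u = 0 := by
  unfold Lm
  have h1 : (lm_fin (K := K) u).toFinset = ∅ := by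
    rw [Finset.eq_empty_iff_forall_notMem]
    intro 𝔟 hb
    rw [mem_lm] at hb
    have := absNorm_ge hb.1
    linarith
  rw [h1, Finset.sum_empty, mul_zero]

theorem lm_nonneg {w : ℝ} (hw : 0 ≤ w) (u : ℝ) : 0 ≤ Lm K w u := by
  unfold Lm
  exact mul_nonneg hw (Finset.sum_nonneg fun 𝔟 hb => pow_nonneg (lm_term hb) _)

theorem lm_pos {w : ℝ} (hw : 0 ≤ w) {u : ℝ} (h : 3 ≤ u) : w ≤ Lm K w u := by
  unfold Lm
  have h1 : (⊤ : Ideal (𝓞 K)) ∈ (lm_fin (K := K) u).toFinset := by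
    rw [mem_lm]
    refine ⟨top_ne_bot, ?_⟩
    rw [Ideal.absNorm_top]
    push_cast
    linarith
  have h2 : 1 ≤ ∑ 𝔟 ∈ (lm_fin (K := K) u).toFinset,
      Real.log (u / (Ideal.absNorm 𝔟 : ℝ)) ^ Units.rank K := by
    refine le_trans ?_ (Finset.single_le_sum (f := fun 𝔟 : Ideal (𝓞 K) =>
      Real.log (u / (Ideal.absNorm 𝔟 : ℝ)) ^ Units.rank K)
      (fun 𝔟 hb => pow_nonneg (lm_term hb) _) h1)
    simp only [Ideal.absNorm_top, Nat.cast_one, div_one]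
    refine one_le_pow₀ ?_
    rw [Real.le_log_iff_exp_le (by linarith)]
    have := Real.exp_one_lt_d9
    linarith
  calc w = w * 1 := (mul_one w).symm
    _ ≤ _ := mul_le_mul_of_nonneg_left h2 hw

/-- The number of the multiples of a vector in a box. -/
theorem kp_le {I : Ideal (𝓞 K)} {c0 : ℝ} {t : (K →+* ℂ) → ℝ} (ht : Shp c0 t) {m : ℕ}
    {v : Fin m → K} (hv : v ≠ 0) {b : ℕ} (hb : 1 ≤ b) :
    ((kp K I t m v b : ℕ) : ℝ) ≤ 3 ^ dg K * ((⌈c0⌉₊ + 1 : ℕ) : ℝ) ^ dg K * (b : ℝ) ^ dg K := by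
  have hB : c0 * b ≤ (((⌈c0⌉₊ + 1) * b : ℕ) : ℝ) := by
    push_cast
    have h1 := Nat.le_ceil c0
    have h2 : (0 : ℝ) ≤ b := Nat.cast_nonneg _
    nlinarith
  have h1 : 1 ≤ (⌈c0⌉₊ + 1) * b := Nat.one_le_iff_ne_zero.2 (by positivity)
  obtain ⟨hfin, hcard⟩ := Pool.Agent.Q151.LO.rep K m v hv _ h1
  have h2 : kp K I t m v b ≤ {τ : K | τ ≠ 0 ∧ τ • v ∈ bx K m ((⌈c0⌉₊ + 1) * b)}.ncard := by
    unfold Pool.Agent.Q166.EO.kap
    refine Set.ncard_le_ncard ?_ hfin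
    rintro τ ⟨h3, h4⟩
    exact ⟨h3, bxg_sub_bx ht hB h4⟩
  have h3 : ((kp K I t m v b : ℕ) : ℝ) ≤
      (({τ : K | τ ≠ 0 ∧ τ • v ∈ bx K m ((⌈c0⌉₊ + 1) * b)}.ncard : ℕ) : ℝ) := by
    exact_mod_cast h2
  refine h3.trans ?_
  have h4 := Height.one_le_mulHeight v
  have h5 : (({τ : K | τ ≠ 0 ∧ τ • v ∈ bx K m ((⌈c0⌉₊ + 1) * b)}.ncard : ℕ) : ℝ) ≤
      (({τ : K | τ ≠ 0 ∧ τ • v ∈ bx K m ((⌈c0⌉₊ + 1) * b)}.ncard : ℕ) : ℝ) *
        Height.mulHeight v := le_mul_of_one_le_right (Nat.cast_nonneg _) h4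
  refine h5.trans (hcard.trans (le_of_eq ?_))
  push_cast
  rw [mul_pow]
  ring

/-- The lattice points of a plane in a box are multiples of the representatives of its lines. -/
theorem nug_fib {m b : ℕ} {I : Ideal (𝓞 K)} {c0 : ℝ} {t : (K →+* ℂ) → ℝ} (ht : Shp c0 t)
    (hb0 : ∀ φ, 0 ≤ t φ) (W : Submodule K (Fin m → K))
    (S : Finset (Projectivization K (Fin m → K)))
    (hS : ∀ l, l ∈ S ↔ (∃ τ : K, τ ≠ 0 ∧ τ • l.rep ∈ bx K m ⌈c0 * b⌉₊) ∧ l.rep ∈ W) :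
    nug K I t m W b = 1 + ∑ l ∈ S, kp K I t m l.rep b := by
  classical
  set F : Finset (Fin m → K) := (bxg K I t m b).filter fun x => x ∈ W with hF
  have hFn : nug K I t m W b = F.card := by
    unfold nug
    rw [hF]
  have h0 : (0 : Fin m → K) ∈ F := by
    rw [hF, Finset.mem_filter, mem_bxg]
    refine ⟨fun a => ⟨⟨0, I.zero_mem, by simp⟩, fun φ => ?_⟩, W.zero_mem⟩
    rw [Pi.zero_apply, map_zero, norm_zero]
    exact mul_nonneg (hb0 φ) (Nat.cast_nonneg _)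
  set Ts : Projectivization K (Fin m → K) → Finset K := fun l =>
    (mul_fin l.rep l.rep_nonzero (bxg K I t m b)).toFinset with hTs
  have hTm : ∀ l τ, τ ∈ Ts l ↔ τ ≠ 0 ∧ τ • l.rep ∈ bxg K I t m b := by
    intro l τ
    rw [hTs]
    simp only [Set.Finite.mem_toFinset, Set.mem_setOf_eq]
  have hTc : ∀ l, (Ts l).card = kp K I t m l.rep b := by
    intro l
    unfold Pool.Agent.Q166.EO.kap
    rw [hTs]
    simp only
    rw [Set.ncard_eq_toFinset_card _ (mul_fin l.rep l.rep_nonzero _)]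
  have hU : F.erase 0 = S.biUnion fun l => (Ts l).image fun τ => τ • l.rep := by
    ext x
    rw [Finset.mem_erase, hF, Finset.mem_filter, Finset.mem_biUnion]
    constructor
    · rintro ⟨hx0, hx1, hx2⟩
      obtain ⟨a, ha0, ha⟩ := rep_mul hx0
      have hx : a⁻¹ • (Projectivization.mk K x hx0).rep = x := by
        rw [ha, smul_smul, inv_mul_cancel₀ ha0, one_smul]
      refine ⟨Projectivization.mk K x hx0, ?_, ?_⟩
      · rw [hS]
        refine ⟨⟨a⁻¹, inv_ne_zero ha0, ?_⟩, rep_mem hx0 hx2⟩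
        rw [hx]
        exact bxg_sub_bx ht (Nat.le_ceil _) hx1
      · rw [Finset.mem_image]
        refine ⟨a⁻¹, ?_, hx⟩
        rw [hTm, hx]
        exact ⟨inv_ne_zero ha0, hx1⟩
    · rintro ⟨l, hl, hx⟩
      rw [Finset.mem_image] at hx
      obtain ⟨τ, hτ, rfl⟩ := hx
      rw [hTm] at hτ
      exact ⟨smul_ne_zero hτ.1 l.rep_nonzero, hτ.2, W.smul_mem _ ((hS l).1 hl).2⟩
  have hdisj : ∀ l ∈ S, ∀ l' ∈ S, l ≠ l' → Disjoint ((Ts l).image fun τ => τ • l.rep)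
      ((Ts l').image fun τ => τ • l'.rep) := by
    intro l _ l' _ hne
    rw [Finset.disjoint_left]
    intro x hx hx'
    rw [Finset.mem_image] at hx hx'
    obtain ⟨τ, hτ, rfl⟩ := hx
    obtain ⟨τ', hτ', h⟩ := hx'
    rw [hTm] at hτ hτ'
    apply hne
    have hx0 : τ • l.rep ≠ 0 := smul_ne_zero hτ.1 l.rep_nonzero
    rw [← mk_eq_of_mul hx0 rfl, ← mk_eq_of_mul hx0 h]
  rw [hFn, ← Finset.card_erase_add_one h0, hU, Finset.card_biUnion hdisj, add_comm]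
  congr 1
  refine Finset.sum_congr rfl fun l _ => ?_
  rw [Finset.card_image_of_injective _ (smul_inj _ l.rep_nonzero), hTc]

end

end Pool.Agent.Q237.GM
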