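import Mathlib
import Pool.Agent.Q237.GM.Lam

/-!
Project GM of helper35 (MP_1acd66_nt), job GM-AVG (helper237): the number of the lines of bounded height
in a plane.
-/

set_option autoImplicit false

namespace Pool.Agent.Q237.GM

open Finset Function NumberField MeasureTheory
open Pool.Agent.Q35.MM (bx dg mem_bx S1)
open Pool.Agent.Q35.EO (S1g bxg Shp nug mem_bxg S_UN)
open Pool.Agent.Q35.GM
open Pool.Agent.Q166.EO (smul_inj mul_fin pts_fin bxg_sub_bx kap_int absNorm_ge ideal_fin)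
open Pool.Agent.Q166.EO renaming kap → kp

section

variable {K : Type} [Field K] [NumberField K]

/-- Bounds for the main term. -/
theorem cI_bd (I : Ideal (𝓞 K)) (hI : I ≠ ⊥) (c0 : ℝ) (hc0 : 1 ≤ c0) : ∃ A B : ℝ, 0 < A ∧
    ∀ t : (K →+* ℂ) → ℝ, Shp c0 t → A ≤ cI I t ∧ cI I t ≤ B := by
  have hk := kap_pos (K := K)
  have hN : (0 : ℝ) < Ideal.absNorm I := by
    have := absNorm_ge hI
    linarith
  refine ⟨kap K / (Ideal.absNorm I : ℝ) ^ 2 * ∏ w : InfinitePlace K, (1 / c0) ^ (2 * w.mult),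
    kap K / (Ideal.absNorm I : ℝ) ^ 2 * ∏ w : InfinitePlace K, c0 ^ (2 * w.mult),
    mul_pos (by positivity) (Finset.prod_pos fun w _ => by positivity), fun t ht => ?_⟩
  unfold cI
  have h1 : ∀ w : InfinitePlace K, 1 / c0 ≤ tmin t w := fun w => by
    unfold tmin
    exact le_min (ht _).1 (ht _).1
  have h2 : ∀ w : InfinitePlace K, tmin t w ≤ c0 := fun w => by
    unfold tmin
    exact (min_le_left _ _).trans (ht _).2
  have h0 : (0 : ℝ) ≤ 1 / c0 := by positivity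
  constructor
  · refine mul_le_mul_of_nonneg_left ?_ (by positivity)
    exact Finset.prod_le_prod (fun w _ => by positivity) fun w _ =>
      pow_le_pow_left₀ h0 (h1 w) _
  · refine mul_le_mul_of_nonneg_left ?_ (by positivity)
    exact Finset.prod_le_prod (fun w _ => pow_nonneg (h0.trans (h1 w)) _) fun w _ =>
      pow_le_pow_left₀ (h0.trans (h1 w)) (h2 w) _

theorem cI_meas {Ω : Type} [MeasurableSpace Ω] (I : Ideal (𝓞 K)) (T : Ω → (K →+* ℂ) → ℝ)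
    (hT : ∀ φ, Measurable fun ζ => T ζ φ) : Measurable fun ζ => cI I (T ζ) := by
  unfold cI tmin
  refine Measurable.const_mul ?_ _
  refine Finset.measurable_prod _ fun w _ => ?_
  exact ((hT _).min (hT _)).pow_const _

theorem cI_int {Ω : Type} [MeasurableSpace Ω] (μ : Measure Ω) [IsFiniteMeasure μ]
    (I : Ideal (𝓞 K)) (hI : I ≠ ⊥) (c0 : ℝ) (hc0 : 1 ≤ c0) (T : Ω → (K →+* ℂ) → ℝ)
    (hS : ∀ ζ, Shp c0 (T ζ)) (hT : ∀ φ, Measurable fun ζ => T ζ φ) :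
    Integrable (fun ζ => cI I (T ζ)) μ := by
  obtain ⟨A, B, hA, h⟩ := cI_bd I hI c0 hc0
  refine Integrable.of_bound (cI_meas I T hT).aestronglyMeasurable B
    (Filter.Eventually.of_forall fun ζ => ?_)
  rw [Real.norm_of_nonneg (hA.le.trans (h _ (hS ζ)).1)]
  exact (h _ (hS ζ)).2

/-- The decomposition of the mean of the number of the lattice points. -/
theorem mean {Ω : Type} [MeasurableSpace Ω] (μ : Measure Ω) [IsFiniteMeasure μ]
    (R0 : Finset (Ideal (𝓞 K))) (c0 w : ℝ) (T : Ideal (𝓞 K) → Ω → (K →+* ℂ) → ℝ) (hc0 : 1 ≤ c0)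
    (hT : ∀ I ∈ R0, ∀ ζ, Shp c0 (T I ζ)) (hTm : ∀ I φ, Measurable fun ζ => T I ζ φ)
    (hun : ∀ (m : ℕ) (v : Fin m → K), v ≠ 0 → ∀ b : ℕ, 1 ≤ b →
      ∑ I ∈ R0, ∫ ζ, ((kp K I (T I ζ) m v b : ℕ) : ℝ) ∂μ =
        Lm K w ((b : ℝ) ^ dg K / Height.mulHeight v))
    {m : ℕ} (W : Submodule K (Fin m → K)) (b : ℕ) (hb : 1 ≤ b) :
    (∀ I ∈ R0, Integrable (fun ζ => ((nug K I (T I ζ) m W b : ℕ) : ℝ)) μ) ∧
    ∑ᶠ l ∈ {l : Projectivization K (Fin m → K) | l.rep ∈ W ∧ l.mulHeight ≤ (b : ℝ) ^ dg K},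
      Lm K w ((b : ℝ) ^ dg K / l.mulHeight) =
      ∑ I ∈ R0, ∫ ζ, (((nug K I (T I ζ) m W b : ℕ) : ℝ) - 1) ∂μ := by
  classical
  set S : Finset (Projectivization K (Fin m → K)) :=
    ((pts_fin (bx K m ⌈c0 * b⌉₊)).toFinset).filter fun l => l.rep ∈ W with hS
  have hSm : ∀ l, l ∈ S ↔ (∃ τ : K, τ ≠ 0 ∧ τ • l.rep ∈ bx K m ⌈c0 * b⌉₊) ∧ l.rep ∈ W := by
    intro l
    rw [hS, Finset.mem_filter, Set.Finite.mem_toFinset]
    exact Iff.rfl
  have hpos : ∀ I ∈ R0, ∀ ζ φ, 0 ≤ T I ζ φ := by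
    intro I hI ζ φ
    refine le_trans ?_ (hT I hI ζ φ).1
    positivity
  have hfib : ∀ I ∈ R0, ∀ ζ, ((nug K I (T I ζ) m W b : ℕ) : ℝ) =
      1 + ∑ l ∈ S, ((kp K I (T I ζ) m l.rep b : ℕ) : ℝ) := by
    intro I hI ζ
    rw [nug_fib (hT I hI ζ) (hpos I hI ζ) W S hSm]
    push_cast
    rfl
  have hkint : ∀ I ∈ R0, ∀ l : Projectivization K (Fin m → K),
      Integrable (fun ζ => ((kp K I (T I ζ) m l.rep b : ℕ) : ℝ)) μ := fun I hI l =>
    kap_int μ I (T I) c0 (hT I hI) (hTm I) m l.rep l.rep_nonzero b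
  have hsint : ∀ I ∈ R0,
      Integrable (fun ζ => ∑ l ∈ S, ((kp K I (T I ζ) m l.rep b : ℕ) : ℝ)) μ := fun I hI =>
    integrable_finsetSum _ fun l _ => hkint I hI l
  refine ⟨fun I hI => ?_, ?_⟩
  · simp only [hfib I hI]
    exact (integrable_const _).add (hsint I hI)
  have h1 : ∑ I ∈ R0, ∫ ζ, (((nug K I (T I ζ) m W b : ℕ) : ℝ) - 1) ∂μ =
      ∑ l ∈ S, Lm K w ((b : ℝ) ^ dg K / l.mulHeight) := by
    have h2 : ∀ I ∈ R0, ∫ ζ, (((nug K I (T I ζ) m W b : ℕ) : ℝ) - 1) ∂μ =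
        ∑ l ∈ S, ∫ ζ, ((kp K I (T I ζ) m l.rep b : ℕ) : ℝ) ∂μ := by
      intro I hI
      simp only [hfib I hI, add_sub_cancel_left]
      exact integral_finsetSum _ fun l _ => hkint I hI l
    rw [Finset.sum_congr rfl h2, Finset.sum_comm]
    refine Finset.sum_congr rfl fun l _ => ?_
    rw [hun m l.rep l.rep_nonzero b hb, height_rep]
  rw [h1]
  refine finsum_mem_eq_sum_of_inter_support_eq _ ?_
  ext l
  simp only [Set.mem_inter_iff, Set.mem_setOf_eq, Function.mem_support, Finset.mem_coe]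
  constructor
  · rintro ⟨⟨h2, h3⟩, h4⟩
    refine ⟨?_, h4⟩
    rw [hSm]
    refine ⟨?_, h2⟩
    by_contra hcon
    apply h4
    rw [← height_rep, ← hun m l.rep l.rep_nonzero b hb]
    refine Finset.sum_eq_zero fun I hI => ?_
    have h5 : ∀ ζ, ((kp K I (T I ζ) m l.rep b : ℕ) : ℝ) = 0 := by
      intro ζ
      have h6 : {τ : K | τ ≠ 0 ∧ τ • l.rep ∈ bxg K I (T I ζ) m b} = ∅ := by
        rw [Set.eq_empty_iff_forall_notMem]
        rintro τ ⟨h7, h8⟩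
        exact hcon ⟨τ, h7, bxg_sub_bx (hT I hI ζ) (Nat.le_ceil _) h8⟩
      unfold Pool.Agent.Q166.EO.kap
      rw [h6, Set.ncard_empty, Nat.cast_zero]
    simp only [h5, integral_zero]
  · rintro ⟨h2, h3⟩
    rw [hSm] at h2
    refine ⟨⟨h2.2, ?_⟩, h3⟩
    by_contra hcon
    push Not at hcon
    apply h3
    refine lm_zero w ?_
    rw [div_lt_one l.mulHeight_pos]
    exact hcon

end

/-- The error terms. -/
theorem err {d σ b : ℕ} {H a C1 : ℝ} (hd : 0 < d) (hb : 1 ≤ b) (hH : 0 < H) (ha : 0 < a)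
    (hC1 : 1 ≤ C1) (h1 : (σ : ℝ) ^ d ≤ C1 * H / a) :
    (σ : ℝ) / b ≤ C1 * (H / (a * (b : ℝ) ^ d)) ^ ((d : ℝ)⁻¹) := by
  have hb0 : (0 : ℝ) < b := by exact_mod_cast hb
  have h2 : ((σ : ℝ) / b) ^ d ≤ C1 * (H / (a * (b : ℝ) ^ d)) := by
    rw [div_pow, div_le_iff₀ (by positivity)]
    refine h1.trans (le_of_eq ?_)
    field_simp
  have h3 : (σ : ℝ) / b = (((σ : ℝ) / b) ^ d) ^ ((d : ℝ)⁻¹) :=
    (Real.pow_rpow_inv_natCast (by positivity) hd.ne').symm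
  have hd0 : (0 : ℝ) ≤ (d : ℝ)⁻¹ := by positivity
  have hd1 : (d : ℝ)⁻¹ ≤ 1 := by
    refine inv_le_one_of_one_le₀ ?_
    exact_mod_cast hd
  rw [h3]
  calc (((σ : ℝ) / b) ^ d) ^ ((d : ℝ)⁻¹) ≤ (C1 * (H / (a * (b : ℝ) ^ d))) ^ ((d : ℝ)⁻¹) :=
        Real.rpow_le_rpow (by positivity) h2 hd0
    _ = C1 ^ ((d : ℝ)⁻¹) * (H / (a * (b : ℝ) ^ d)) ^ ((d : ℝ)⁻¹) :=
        Real.mul_rpow (by linarith) (by positivity)
    _ ≤ C1 * (H / (a * (b : ℝ) ^ d)) ^ ((d : ℝ)⁻¹) := by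
        have h4 : C1 ^ ((d : ℝ)⁻¹) ≤ C1 := by
          calc C1 ^ ((d : ℝ)⁻¹) ≤ C1 ^ (1 : ℝ) := Real.rpow_le_rpow_of_exponent_le hC1 hd1
            _ = C1 := Real.rpow_one _
        gcongr

theorem one_le_err {d : ℕ} {H a P : ℝ} (hd : 0 < d) (hH : 0 < H) (ha : 0 < a) (h1 : a ≤ P)
    (h2 : H / a ≤ P) : 1 ≤ P ^ 2 / H * (H / (a * P)) ^ ((d : ℝ)⁻¹) := by
  have hP : 0 < P := by linarith
  have hX : 0 < H / (a * P) := by positivity
  have hX1 : H / (a * P) ≤ 1 := by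
    rw [div_le_one (by positivity)]
    rw [div_le_iff₀ ha] at h2
    linarith
  have hd1 : (d : ℝ)⁻¹ ≤ 1 := by
    refine inv_le_one_of_one_le₀ ?_
    exact_mod_cast hd
  calc (1 : ℝ) ≤ P / a := by
        rw [one_le_div ha]
        exact h1
    _ = P ^ 2 / H * (H / (a * P)) := by field_simp
    _ = P ^ 2 / H * (H / (a * P)) ^ (1 : ℝ) := by rw [Real.rpow_one]
    _ ≤ P ^ 2 / H * (H / (a * P)) ^ ((d : ℝ)⁻¹) := by
        have := Real.rpow_le_rpow_of_exponent_ge hX hX1 hd1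
        gcongr

theorem avg (hUN : S_UN) (hLA : S_LA) (hMIN : S_MIN) : S_AVG := by
  intro K _ _ m
  classical
  obtain ⟨Ω, mΩ, μ, R0, c0, w, T, hμ, hc0, hw, hR0, hT, hTm, hun0⟩ := hUN K
  obtain ⟨C1, hC1, hmin⟩ := hMIN K m
  have hd := dg_pos (K := K)
  have hun : ∀ (m : ℕ) (v : Fin m → K), v ≠ 0 → ∀ b : ℕ, 1 ≤ b →
      ∑ I ∈ R0, ∫ ζ, ((kp K I (T I ζ) m v b : ℕ) : ℝ) ∂μ =
        Lm K w ((b : ℝ) ^ dg K / Height.mulHeight v) := by
    intro m v hv b hb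
    rw [← lm_eq w (Height.mulHeight_pos v)]
    exact hun0 m v hv b hb
  -- the case of dimension one
  have hv1 : (fun _ => 1 : Fin 1 → K) ≠ 0 := by
    intro h
    have := congrFun h 0
    simp at this
  have hh1 : Height.mulHeight (fun _ => 1 : Fin 1 → K) = 1 :=
    Height.mulHeight_eq_one_of_subsingleton _
  have hun1 : ∀ b : ℕ, 1 ≤ b → ∑ I ∈ R0, ∫ ζ, ((kp K I (T I ζ) 1 (fun _ => 1) b : ℕ) : ℝ) ∂μ =
      Lm K w ((b : ℝ) ^ dg K) := by
    intro b hb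
    rw [hun 1 _ hv1 b hb, hh1, div_one]
  have hμ0 : 0 ≤ μ.real Set.univ := measureReal_nonneg
  obtain ⟨A0, hA0⟩ : ∃ A0 : ℝ, A0 = 3 ^ dg K * ((⌈c0⌉₊ + 1 : ℕ) : ℝ) ^ dg K := ⟨_, rfl⟩
  have hA00 : 0 ≤ A0 := by
    rw [hA0]
    positivity
  -- the linear bound
  obtain ⟨CL, hCL⟩ : ∃ CL : ℝ, CL = (R0.card : ℝ) * (A0 * μ.real Set.univ) * 2 ^ dg K := ⟨_, rfl⟩
  have hCL0 : 0 ≤ CL := by
    rw [hCL]
    positivity
  have hle : ∀ u : ℝ, 1 ≤ u → Lm K w u ≤ CL * u := by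
    intro u hu
    obtain ⟨b, hb, hb1, hb2⟩ := ex_pow (dg K) hd u hu
    have h1 : Lm K w ((b : ℝ) ^ dg K) ≤ (R0.card : ℝ) * (A0 * μ.real Set.univ) * (b : ℝ) ^ dg K := by
      rw [← hun1 b hb]
      calc ∑ I ∈ R0, ∫ ζ, ((kp K I (T I ζ) 1 (fun _ => 1) b : ℕ) : ℝ) ∂μ
          ≤ ∑ I ∈ R0, A0 * (b : ℝ) ^ dg K * μ.real Set.univ := by
            refine Finset.sum_le_sum fun I hI => ?_
            have h2 : ∀ ζ, ‖((kp K I (T I ζ) 1 (fun _ => 1) b : ℕ) : ℝ)‖ ≤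
                A0 * (b : ℝ) ^ dg K := by
              intro ζ
              rw [Real.norm_of_nonneg (Nat.cast_nonneg _), hA0]
              exact kp_le (hT I hI ζ) hv1 hb
            have h3 := norm_integral_le_of_norm_le_const (μ := μ)
              (Filter.Eventually.of_forall h2)
            exact (le_abs_self _).trans h3
        _ = _ := by
            rw [Finset.sum_const, nsmul_eq_mul]
            ring
    calc Lm K w u ≤ Lm K w ((b : ℝ) ^ dg K) := lm_mono hw.le hb1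
      _ ≤ (R0.card : ℝ) * (A0 * μ.real Set.univ) * (b : ℝ) ^ dg K := h1
      _ ≤ (R0.card : ℝ) * (A0 * μ.real Set.univ) * (2 ^ dg K * u) := by gcongr
      _ = CL * u := by
          rw [hCL]
          ring
  -- the measure and the set of the ideals are nontrivial
  have hnt : ∃ I ∈ R0, 0 < μ.real Set.univ := by
    by_contra hcon
    push Not at hcon
    have h1 := hun1 3 (by norm_num)
    have h2 : (3 : ℝ) ≤ ((3 : ℕ) : ℝ) ^ dg K := by
      push_cast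
      exact le_self_pow₀ (by norm_num) hd.ne'
    have h3 := lm_pos (K := K) hw.le h2
    rw [← h1] at h3
    have h4 : ∑ I ∈ R0, ∫ ζ, ((kp K I (T I ζ) 1 (fun _ => 1) 3 : ℕ) : ℝ) ∂μ = 0 := by
      refine Finset.sum_eq_zero fun I hI => ?_
      have h5 : μ.real Set.univ = 0 := le_antisymm (hcon I hI) hμ0
      have h6 : μ = 0 := by
        rw [← Measure.measure_univ_eq_zero]
        rwa [measureReal_eq_zero_iff] at h5
      rw [h6, integral_zero_measure]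
    linarith
  -- the constant
  have hcint : ∀ I ∈ R0, Integrable (fun ζ => cI I (T I ζ)) μ := fun I hI =>
    cI_int μ I (hR0 I hI) c0 hc0 (T I) (hT I hI) (hTm I)
  obtain ⟨κ1, hκ1⟩ : ∃ κ1 : ℝ, κ1 = ∑ I ∈ R0, ∫ ζ, cI I (T I ζ) ∂μ := ⟨_, rfl⟩
  have hclow : ∀ I ∈ R0, ∃ A : ℝ, 0 < A ∧ A * μ.real Set.univ ≤ ∫ ζ, cI I (T I ζ) ∂μ := by
    intro I hI
    obtain ⟨A, B, hA, h⟩ := cI_bd I (hR0 I hI) c0 hc0
    refine ⟨A, hA, ?_⟩
    have h1 : ∫ _ζ : Ω, A ∂μ ≤ ∫ ζ, cI I (T I ζ) ∂μ :=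
      integral_mono (integrable_const _) (hcint I hI) fun ζ => (h _ (hT I hI ζ)).1
    rw [integral_const, smul_eq_mul] at h1
    linarith
  have hκ0 : 0 < κ1 := by
    obtain ⟨I, hI, hI2⟩ := hnt
    obtain ⟨A, hA, h1⟩ := hclow I hI
    rw [hκ1]
    refine lt_of_lt_of_le (mul_pos hA hI2) (h1.trans ?_)
    refine Finset.single_le_sum (f := fun I => ∫ ζ, cI I (T I ζ) ∂μ) (fun J hJ => ?_) hI
    obtain ⟨A', hA', h2⟩ := hclow J hJ
    exact le_trans (by positivity) h2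
  -- the constants of the count
  have hla : ∀ I ∈ R0, ∃ C : ℝ, 1 ≤ C ∧ ∀ t : (K →+* ℂ) → ℝ, Shp c0 t →
    ∀ (W : Submodule K (Fin m → K)) (σ ρ : ℕ), Module.finrank K W = 2 → 1 ≤ σ →
      W ≤ Submodule.span K {x : Fin m → K | x ∈ W ∧ x ∈ bx K m σ} → C * (σ : ℝ) ≤ ρ →
      |(nug K I t m W ρ : ℝ) - cI I t * VW W / HW W * (ρ : ℝ) ^ (2 * dg K)| ≤
        C * ((σ : ℝ) / ρ) * ((ρ : ℝ) ^ (2 * dg K) / HW W) := fun I hI =>
    hLA K m I c0 (hR0 I hI) hc0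
  choose! CI hCI1 hCI using hla
  obtain ⟨D, hD⟩ : ∃ D : ℝ, D = 1 + ∑ I ∈ R0, CI I := ⟨_, rfl⟩
  have hCD : ∀ I ∈ R0, CI I ≤ D := by
    intro I hI
    have := Finset.single_le_sum (f := CI) (fun J hJ => by linarith [hCI1 J hJ]) hI
    rw [hD]
    linarith
  have hD1 : 1 ≤ D := by
    have : 0 ≤ ∑ I ∈ R0, CI I := Finset.sum_nonneg fun J hJ => by linarith [hCI1 J hJ]
    rw [hD]
    linarith
  obtain ⟨CF, hCF⟩ : ∃ CF : ℝ, CF = (R0.card : ℝ) * ((D * C1 + 1) * μ.real Set.univ) := ⟨_, rfl⟩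
  have hCF0 : 0 ≤ CF := by
    rw [hCF]
    positivity
  have hDd : 1 ≤ D ^ dg K := one_le_pow₀ hD1
  obtain ⟨C, hC⟩ : ∃ C : ℝ, C = C1 * D ^ dg K + CL + 3 + 1 / w + CF := ⟨_, rfl⟩
  have hw1 : 0 < 1 / w := by positivity
  have hCD1 : C1 ≤ C1 * D ^ dg K := le_mul_of_one_le_right (by linarith) hDd
  have hC1' : C1 ≤ C := by linarith
  refine ⟨Lm K w, κ1, C, ((dg K : ℕ) : ℝ)⁻¹, hκ0, by linarith, by positivity,
    ⟨lm_mono hw.le, fun u hu => lm_zero w hu, lm_nonneg hw.le, fun u hu => ?_, ?_⟩, ?_⟩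
  · refine (hle u hu).trans ?_
    gcongr
    linarith
  · refine le_trans ?_ (lm_pos (K := K) hw.le (u := C) (by linarith))
    rw [div_le_iff₀ (by linarith)]
    have h1 : 1 / w ≤ C := by linarith
    rw [div_le_iff₀ hw] at h1
    linarith
  · intro W hW a b ha0 ha hb
    obtain ⟨hH1, -, -, ⟨l, l', hne, hl, hl', hll⟩, -, hσ⟩ := hmin W hW
    obtain ⟨σ, hσ1, hspan, hσ2⟩ := hσ a ha0 ha
    have hH : 0 < HW W := by linarith
    have hHa : 0 < HW W / a := by positivity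
    have hC0 : 0 < C := by linarith
    have hbpos : 0 < (b : ℝ) ^ dg K := by
      refine lt_of_lt_of_le ?_ hb
      positivity
    have hb1 : 1 ≤ b := by
      rcases Nat.eq_zero_or_pos b with h | h
      · rw [h, Nat.cast_zero, zero_pow hd.ne'] at hbpos
        exact absurd hbpos (lt_irrefl _)
      · exact h
    have hCle : C1 * HW W / a ≤ (b : ℝ) ^ dg K := by
      refine le_trans ?_ hb
      gcongr
    have haP : a ≤ (b : ℝ) ^ dg K := by
      refine le_trans ?_ hCle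
      rw [le_div_iff₀ ha0]
      refine le_trans ?_ hll
      exact mul_le_mul (ha l hl) (ha l' hl') ha0.le l.mulHeight_pos.le
    have hHP : HW W / a ≤ (b : ℝ) ^ dg K := by
      refine le_trans ?_ hCle
      rw [mul_div_assoc]
      exact le_mul_of_one_le_left hHa.le hC1
    obtain ⟨X, hX⟩ : ∃ X : ℝ, X = (HW W / (a * (b : ℝ) ^ dg K)) ^ (((dg K : ℕ) : ℝ)⁻¹) :=
      ⟨_, rfl⟩
    have hX0 : 0 ≤ X := by
      rw [hX]
      positivity
    have e1 : (σ : ℝ) / b ≤ C1 * X := by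
      rw [hX]
      exact err hd hb1 hH ha0 hC1 hσ2
    have e2 : 1 ≤ ((b : ℝ) ^ dg K) ^ 2 / HW W * X := by
      rw [hX]
      exact one_le_err hd hH ha0 haP hHP
    obtain ⟨hnint, hsum⟩ := mean μ R0 c0 w T hc0 hT hTm hun W b hb1
    rw [hsum, ← hX]
    have h1 : ∑ I ∈ R0, ∫ ζ, (((nug K I (T I ζ) m W b : ℕ) : ℝ) - 1) ∂μ -
        κ1 * VW W * ((b : ℝ) ^ dg K) ^ 2 / HW W =
        ∑ I ∈ R0, ∫ ζ, ((((nug K I (T I ζ) m W b : ℕ) : ℝ) - 1) -
          cI I (T I ζ) * (VW W / HW W * ((b : ℝ) ^ dg K) ^ 2)) ∂μ := by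
      have h2 : ∀ I ∈ R0, ∫ ζ, ((((nug K I (T I ζ) m W b : ℕ) : ℝ) - 1) -
          cI I (T I ζ) * (VW W / HW W * ((b : ℝ) ^ dg K) ^ 2)) ∂μ =
          ∫ ζ, (((nug K I (T I ζ) m W b : ℕ) : ℝ) - 1) ∂μ -
          (∫ ζ, cI I (T I ζ) ∂μ) * (VW W / HW W * ((b : ℝ) ^ dg K) ^ 2) := by
        intro I hI
        have hi : Integrable (fun ζ => ((nug K I (T I ζ) m W b : ℕ) : ℝ) - 1) μ :=
          (hnint I hI).sub (integrable_const _)
        rw [integral_sub hi ((hcint I hI).mul_const _), integral_mul_const]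
      rw [Finset.sum_congr rfl h2, Finset.sum_sub_distrib, ← Finset.sum_mul, ← hκ1]
      ring
    rw [h1]
    refine (Finset.abs_sum_le_sum_abs _ _).trans ?_
    have h3 : ∀ I ∈ R0, |∫ ζ, ((((nug K I (T I ζ) m W b : ℕ) : ℝ) - 1) -
        cI I (T I ζ) * (VW W / HW W * ((b : ℝ) ^ dg K) ^ 2)) ∂μ| ≤
        (D * C1 + 1) * (((b : ℝ) ^ dg K) ^ 2 / HW W * X) * μ.real Set.univ := by
      intro I hI
      have h4 : ∀ ζ, ‖(((nug K I (T I ζ) m W b : ℕ) : ℝ) - 1) -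
          cI I (T I ζ) * (VW W / HW W * ((b : ℝ) ^ dg K) ^ 2)‖ ≤
          (D * C1 + 1) * (((b : ℝ) ^ dg K) ^ 2 / HW W * X) := by
        intro ζ
        have h5 : CI I * (σ : ℝ) ≤ b := by
          have h6 : (CI I * (σ : ℝ)) ^ dg K ≤ (b : ℝ) ^ dg K := by
            refine le_trans ?_ hb
            rw [mul_pow]
            have h7 := hCI1 I hI
            have h8 := hCD I hI
            calc CI I ^ dg K * (σ : ℝ) ^ dg K ≤ D ^ dg K * (C1 * HW W / a) := by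
                  gcongr
              _ = C1 * D ^ dg K * (HW W / a) := by ring
              _ ≤ C * (HW W / a) := by
                  gcongr
                  linarith
              _ = C * HW W / a := by ring
          have h7 := hCI1 I hI
          exact (pow_le_pow_iff_left₀ (by positivity) (Nat.cast_nonneg _) hd.ne').1 h6
        have h6 := hCI I hI (T I ζ) (hT I hI ζ) W σ b hW hσ1 hspan h5
        have h7 : (b : ℝ) ^ (2 * dg K) = ((b : ℝ) ^ dg K) ^ 2 := by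
          rw [← pow_mul, mul_comm]
        rw [h7] at h6
        rw [Real.norm_eq_abs]
        have h8 : (((nug K I (T I ζ) m W b : ℕ) : ℝ) - 1) -
            cI I (T I ζ) * (VW W / HW W * ((b : ℝ) ^ dg K) ^ 2) =
            (((nug K I (T I ζ) m W b : ℕ) : ℝ) -
              cI I (T I ζ) * VW W / HW W * ((b : ℝ) ^ dg K) ^ 2) - 1 := by ring
        rw [h8]
        refine (abs_sub _ _).trans ?_
        rw [abs_one]
        have h9 : CI I * ((σ : ℝ) / b) * (((b : ℝ) ^ dg K) ^ 2 / HW W) ≤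
            D * (C1 * X) * (((b : ℝ) ^ dg K) ^ 2 / HW W) := by
          have := hCD I hI
          gcongr
        calc _ ≤ D * (C1 * X) * (((b : ℝ) ^ dg K) ^ 2 / HW W) +
              ((b : ℝ) ^ dg K) ^ 2 / HW W * X := add_le_add (h6.trans h9) e2
          _ = _ := by ring
      have h5 := norm_integral_le_of_norm_le_const (μ := μ) (Filter.Eventually.of_forall h4)
      exact h5
    refine (Finset.sum_le_sum h3).trans ?_
    rw [Finset.sum_const, nsmul_eq_mul]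
    calc (R0.card : ℝ) * ((D * C1 + 1) * (((b : ℝ) ^ dg K) ^ 2 / HW W * X) * μ.real Set.univ)
        = CF * (((b : ℝ) ^ dg K) ^ 2 / HW W) * X := by
          rw [hCF]
          ring
      _ ≤ C * (((b : ℝ) ^ dg K) ^ 2 / HW W) * X := by
          gcongr
          linarith

end Pool.Agent.Q237.GM
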