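import Mathlib
import Pool.Agent.Q237.GM.Bs

/-!
Project GM of helper35 (MP_1acd66_nt), job GM-MIN (helper237): the successive minima of planes.
-/

set_option autoImplicit false

namespace Pool.Agent.Q237.GM

open Finset Function NumberField
open Pool.Agent.Q35.MM (bx dg mem_bx S1)
open Pool.Agent.Q35.EO (S1g bxg Shp nug mem_bxg)
open Pool.Agent.Q35.GM

section

variable {K : Type} [Field K] [NumberField K]

open Classical in
/-- The number of the points of `W` in the box. -/
noncomputable def nW {m : ℕ} (W : Submodule K (Fin m → K)) (ρ : ℕ) : ℕ :=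
  ((bx K m ρ).filter fun x => x ∈ W).card

theorem nug_eq {m : ℕ} (W : Submodule K (Fin m → K)) (ρ : ℕ) :
    nug K ⊤ (fun _ => 1) m W ρ = nW W ρ := by
  classical
  unfold nug nW
  congr 1
  ext x
  rw [Finset.mem_filter, Finset.mem_filter, mem_bxg_top]

theorem cI_top : cI (K := K) ⊤ (fun _ => 1) = kap K := by
  unfold cI tmin
  simp

theorem VW_bd (hVF : S_VF) (K : Type) [Field K] [NumberField K] (m : ℕ) :
    ∃ C : ℝ, 1 ≤ C ∧ ∀ W : Submodule K (Fin m → K), Module.finrank K W = 2 →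
      1 / C ≤ VW W ∧ VW W ≤ C := by
  obtain ⟨C, hC, h, -⟩ := hVF K m
  have hC0 : 0 < C := by linarith
  refine ⟨C ^ Fintype.card (InfinitePlace K), one_le_pow₀ hC, fun W hW => ?_⟩
  obtain ⟨hb, -⟩ := bs_spec hW
  unfold VW
  have e1 : 1 / C ^ Fintype.card (InfinitePlace K) = ∏ _w : InfinitePlace K, (1 / C) := by
    rw [Finset.prod_const, Finset.card_univ, div_pow, one_pow]
  have e2 : C ^ Fintype.card (InfinitePlace K) = ∏ _w : InfinitePlace K, C := by
    rw [Finset.prod_const, Finset.card_univ]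
  constructor
  · rw [e1]
    exact Finset.prod_le_prod (fun _ _ => by positivity) fun w _ => (h w _ _ hb).1
  · rw [e2]
    refine Finset.prod_le_prod (fun w _ => ?_) fun w _ => (h w _ _ hb).2.1
    exact le_trans (by positivity) (h w _ _ hb).1

theorem low (hVF : S_VF) (hLIM : S_LIM) (hDB : Pool.Agent.Q35.MM.S_DB) (K : Type) [Field K]
    [NumberField K] (m : ℕ) :
    ∃ c : ℝ, 0 < c ∧ c ≤ 1 ∧ ∀ W : Submodule K (Fin m → K), Module.finrank K W = 2 →
      ∀ ρ : ℕ, 1 ≤ ρ → c * ((ρ : ℝ) ^ dg K) ^ 2 / HW W ≤ (nW W ρ : ℝ) := by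
  classical
  obtain ⟨C, hC, hV⟩ := VW_bd hVF K m
  have hC0 : 0 < C := by linarith
  have hk := kap_pos (K := K)
  refine ⟨min 1 (kap K * (1 / C) / 3 ^ (2 * dg K)), ?_, min_le_left _ _, fun W hW ρ hρ => ?_⟩
  · refine lt_min one_pos ?_
    positivity
  have hH : 0 < HW W := lt_of_lt_of_le one_pos (one_le_HW W)
  have hρ0 : (0 : ℝ) < ρ := by exact_mod_cast hρ
  have hlim := hLIM K m ⊤ (fun _ => 1) W (by simp) (fun _ => one_pos) hW
  have h1 : cI (K := K) ⊤ (fun _ => 1) * VW W / HW W ≤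
      (3 / (ρ : ℝ)) ^ (2 * dg K) * (nW W ρ : ℝ) := by
    refine le_of_tendsto hlim ?_
    filter_upwards [Filter.eventually_ge_atTop ρ] with B hB
    have hB0 : (0 : ℝ) < B := by
      have : 0 < B := by omega
      exact_mod_cast this
    have h2 := hDB K m W 2 hW.le B ρ hρ hB
    rw [nug_eq, div_le_iff₀ (by positivity)]
    refine (le_of_eq ?_).trans (h2.trans (le_of_eq ?_))
    · rfl
    · unfold nW
      rw [mul_comm (dg K) 2, mul_div_right_comm, mul_pow]
      ring
  rw [cI_top, div_pow, div_mul_eq_mul_div, le_div_iff₀ (by positivity)] at h1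
  calc min 1 (kap K * (1 / C) / 3 ^ (2 * dg K)) * ((ρ : ℝ) ^ dg K) ^ 2 / HW W
      ≤ (kap K * (1 / C) / 3 ^ (2 * dg K)) * ((ρ : ℝ) ^ dg K) ^ 2 / HW W := by
        have := min_le_right 1 (kap K * (1 / C) / 3 ^ (2 * dg K))
        gcongr
    _ ≤ (kap K * VW W / 3 ^ (2 * dg K)) * ((ρ : ℝ) ^ dg K) ^ 2 / HW W := by
        have := (hV W hW).1
        gcongr
    _ = (kap K * VW W / HW W * (ρ : ℝ) ^ (2 * dg K)) / 3 ^ (2 * dg K) := by
        rw [← pow_mul, mul_comm (dg K) 2]
        ring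
    _ ≤ nW W ρ := by
        rw [div_le_iff₀ (by positivity)]
        linarith

theorem few (hREP : Pool.Agent.Q35.LO.S_REP) {m : ℕ} {W : Submodule K (Fin m → K)}
    (l : Projectivization K (Fin m → K)) (ρ : ℕ) (hρ : 1 ≤ ρ)
    (h : ∀ x ∈ bx K m ρ, x ∈ W → ∃ t : K, x = t • l.rep) :
    (nW W ρ : ℝ) ≤ 1 + 3 ^ dg K * (ρ : ℝ) ^ dg K / l.mulHeight := by
  classical
  obtain ⟨hfin, hcard⟩ := hREP K m l.rep l.rep_nonzero ρ hρ
  rw [height_rep] at hcard
  have h1 : ((bx K m ρ).filter fun x => x ∈ W) ⊆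
      insert 0 (hfin.toFinset.image fun t => t • l.rep) := by
    intro x hx
    rw [Finset.mem_filter] at hx
    obtain ⟨t, rfl⟩ := h x hx.1 hx.2
    rw [Finset.mem_insert, Finset.mem_image]
    by_cases ht : t = 0
    · left
      rw [ht, zero_smul]
    · right
      refine ⟨t, ?_, rfl⟩
      rw [Set.Finite.mem_toFinset]
      exact ⟨ht, hx.1⟩
  have h2 : nW W ρ ≤ 1 + {t : K | t ≠ 0 ∧ t • l.rep ∈ bx K m ρ}.ncard := by
    unfold nW
    refine (Finset.card_le_card h1).trans ((Finset.card_insert_le _ _).trans ?_)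
    rw [add_comm, Set.ncard_eq_toFinset_card _ hfin]
    have := Finset.card_image_le (s := hfin.toFinset) (f := fun t : K => t • l.rep)
    omega
  have h3 : (nW W ρ : ℝ) ≤ 1 + (({t : K | t ≠ 0 ∧ t • l.rep ∈ bx K m ρ}.ncard : ℕ) : ℝ) := by
    exact_mod_cast h2
  refine h3.trans ?_
  have h4 := l.mulHeight_pos
  have h5 : (({t : K | t ≠ 0 ∧ t • l.rep ∈ bx K m ρ}.ncard : ℕ) : ℝ) ≤
      3 ^ dg K * (ρ : ℝ) ^ dg K / l.mulHeight := by
    rw [le_div_iff₀ h4]
    exact hcard
  linarith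

/-- Small vectors give lines of small height. -/
theorem line_of (hHB : Pool.Agent.Q35.LO.S_HB) {m : ℕ} {W : Submodule K (Fin m → K)} (ρ : ℕ)
    {x : Fin m → K} (hx : x ∈ bx K m ρ) (hW : x ∈ W) (h0 : x ≠ 0) :
    (Projectivization.mk K x h0).rep ∈ W ∧
      (Projectivization.mk K x h0).mulHeight ≤ (ρ : ℝ) ^ dg K := by
  refine ⟨rep_mem h0 hW, ?_⟩
  rw [Projectivization.mulHeight_mk]
  exact hHB K m x h0 ρ hx

/-- The points of bounded height are finite. -/
theorem fin_pts (hMK : Pool.Agent.Q35.MM.S_MK) (m : ℕ) (B : ℝ) :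
    {l : Projectivization K (Fin m → K) | l.mulHeight ≤ B}.Finite := by
  obtain ⟨c, -, hM⟩ := hMK K
  obtain ⟨ρ, h1, h2, -⟩ := ex_pow (dg K) dg_pos (max B 1) (le_max_right _ _)
  refine (Pool.Agent.Q166.EO.pts_fin (bx K m (c * ρ))).subset fun l hl => ?_
  refine hM m l.rep l.rep_nonzero ρ h1 ?_
  rw [height_rep]
  exact (le_trans hl (le_max_left _ _)).trans h2

/-- The line of smallest height. -/
theorem ex_min (hMK : Pool.Agent.Q35.MM.S_MK) {m : ℕ} {W : Submodule K (Fin m → K)}
    (hW : Module.finrank K W = 2) : ∃ l : Projectivization K (Fin m → K), l.rep ∈ W ∧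
      ∀ l' : Projectivization K (Fin m → K), l'.rep ∈ W → l.mulHeight ≤ l'.mulHeight := by
  have hx0 : (bs W).1 ≠ 0 := by
    have h1 := (bs_spec hW).1.ne_zero 0
    simpa using h1
  set l0 := Projectivization.mk K (bs W).1 hx0 with hl0
  have hl0W : l0.rep ∈ W := rep_mem hx0 (bs_mem hW).1
  have hfin : {l : Projectivization K (Fin m → K) | l.rep ∈ W ∧
      l.mulHeight ≤ l0.mulHeight}.Finite :=
    (fin_pts hMK m l0.mulHeight).subset fun l hl => hl.2
  obtain ⟨l, hl, hmin⟩ := Set.exists_min_image _ (fun l => l.mulHeight) hfin ⟨l0, hl0W, le_rfl⟩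
  refine ⟨l, hl.1, fun l' hl' => ?_⟩
  by_cases h : l'.mulHeight ≤ l0.mulHeight
  · exact hmin l' ⟨hl', h⟩
  · exact hl.2.trans (not_le.1 h).le

/-- The height of a plane is at most the product of the heights of two lines. -/
theorem HW_le (K : Type) [Field K] [NumberField K] (m : ℕ) : ∃ C : ℝ, 1 ≤ C ∧
    ∀ W : Submodule K (Fin m → K), Module.finrank K W = 2 →
      ∀ l l' : Projectivization K (Fin m → K), l ≠ l' → l.rep ∈ W → l'.rep ∈ W →
        HW W ≤ C * (l.mulHeight * l'.mulHeight) := by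
  classical
  set A : (Fin m × Fin m) × (Fin m × Fin m) → K := fun p =>
    (if p.2 = p.1 then 1 else 0) - (if p.2 = (p.1.2, p.1.1) then 1 else 0) with hA
  refine ⟨max 1 (Nat.card (Fin m × Fin m) ^ Height.totalWeight K * Height.mulHeight A),
    le_max_left _ _, fun W hW l l' hl h1 h2 => ?_⟩
  rw [HW_eq hW (indep hl) h1 h2]
  have hne : Nonempty (Fin m × Fin m) := by
    obtain ⟨a, -⟩ := Function.ne_iff.1 l.rep_nonzero
    exact ⟨(a, a)⟩
  have h3 := Height.mulHeight_linearMap_apply_le A fun p : Fin m × Fin m =>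
    l.rep p.1 * l'.rep p.2
  have h4 : (fun j => ∑ i, A (j, i) * (l.rep i.1 * l'.rep i.2)) = plu l.rep l'.rep := by
    funext j
    simp only [hA, plu, sub_mul, ite_mul, one_mul, zero_mul, Finset.sum_sub_distrib,
      Finset.sum_ite_eq', Finset.mem_univ, if_true]
  rw [h4, Height.mulHeight_fun_mul_eq l.rep_nonzero l'.rep_nonzero, height_rep, height_rep] at h3
  refine h3.trans ?_
  have h5 := l.mulHeight_pos
  have h6 := l'.mulHeight_pos
  gcongr
  exact le_max_right _ _

end

/-- The real inequality for the second minimum. -/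
theorem real_ineq {c H a D u s : ℝ} (hc : 0 < c) (hH : 0 < H) (ha : 0 < a) (hD : 0 < D)
    (h1 : 2 * D * H / (c * a) ≤ u) (h2 : 2 * Real.sqrt (H / c) ≤ u) (hs : u ≤ s) :
    1 + D * s / a < c * s ^ 2 / H := by
  have hr : 0 < Real.sqrt (H / c) := Real.sqrt_pos.2 (by positivity)
  have hs0 : 0 < s := by linarith
  have e1 : Real.sqrt (H / c) ^ 2 = H / c := Real.sq_sqrt (by positivity)
  have h3 : 4 * (H / c) ≤ s ^ 2 := by
    have : (2 * Real.sqrt (H / c)) ^ 2 ≤ s ^ 2 := pow_le_pow_left₀ (by positivity) (h2.trans hs) 2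
    rw [mul_pow, e1] at this
    linarith
  have h4 : 4 ≤ c * s ^ 2 / H := by
    rw [le_div_iff₀ hH]
    have : c * (4 * (H / c)) ≤ c * s ^ 2 := by gcongr
    calc 4 * H = c * (4 * (H / c)) := by field_simp
      _ ≤ _ := this
  have h5 : 2 * (D * s / a) ≤ c * s ^ 2 / H := by
    rw [le_div_iff₀ hH]
    have h6 : 2 * D * H / (c * a) ≤ s := h1.trans hs
    rw [div_le_iff₀ (by positivity)] at h6
    calc 2 * (D * s / a) * H = (2 * D * H) * s / a := by ring
      _ ≤ (s * (c * a)) * s / a := by gcongr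
      _ = c * s ^ 2 := by field_simp
  linarith

theorem min_ (hVF : S_VF) (hLIM : S_LIM) (hDB : Pool.Agent.Q35.MM.S_DB)
    (hREP : Pool.Agent.Q35.LO.S_REP) (hHB : Pool.Agent.Q35.LO.S_HB)
    (hMK : Pool.Agent.Q35.MM.S_MK) : S_MIN := by
  intro K _ _ m
  classical
  obtain ⟨CV, hCV, hV⟩ := VW_bd hVF K m
  obtain ⟨c, hc0, hc1, hlow⟩ := low hVF hLIM hDB K m
  obtain ⟨C4, hC4, hup⟩ := HW_le K m
  obtain ⟨cM, hcM, hM⟩ := hMK K
  set D : ℝ := 3 ^ dg K with hD
  have hD1 : 1 ≤ D := one_le_pow₀ (by norm_num)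
  set E : ℝ := 2 ^ dg K with hE
  have hE1 : 1 ≤ E := one_le_pow₀ (by norm_num)
  -- constants
  set C3 : ℝ := E * (2 * D / c) + E * (2 * (2 * E) / c) with hC3
  have hC30 : 0 ≤ C3 := by positivity
  have main : ∀ W : Submodule K (Fin m → K), Module.finrank K W = 2 →
      ∃ l l' : Projectivization K (Fin m → K), l ≠ l' ∧ l.rep ∈ W ∧ l'.rep ∈ W ∧
        l.mulHeight * l'.mulHeight ≤ C3 * HW W := by
    intro W hW
    have hH1 := one_le_HW W
    have hH : 0 < HW W := by linarith
    obtain ⟨l, hlW, hl⟩ := ex_min hMK hW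
    have ha1 := l.one_le_mulHeight
    have ha : 0 < l.mulHeight := l.mulHeight_pos
    set r : ℝ := Real.sqrt (HW W / c) with hr
    have hHc : 1 ≤ HW W / c := by
      rw [one_le_div hc0]
      linarith
    have hr1 : 1 ≤ r := Real.one_le_sqrt.2 hHc
    have hr2 : r ^ 2 = HW W / c := Real.sq_sqrt (by positivity)
    -- the first minimum
    have hfirst : l.mulHeight ≤ E * (2 * r) := by
      obtain ⟨ρ, h1, h2, h3⟩ := ex_pow (dg K) dg_pos (2 * r) (by linarith)
      have h4 := hlow W hW ρ h1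
      have h5 : (1 : ℝ) < nW W ρ := by
        refine lt_of_lt_of_le ?_ h4
        rw [lt_div_iff₀ hH]
        have h6 : (2 * r) ^ 2 ≤ ((ρ : ℝ) ^ dg K) ^ 2 := pow_le_pow_left₀ (by positivity) h2 2
        rw [mul_pow, hr2] at h6
        have h7 : c * (2 ^ 2 * (HW W / c)) ≤ c * ((ρ : ℝ) ^ dg K) ^ 2 := by gcongr
        have h8 : c * (2 ^ 2 * (HW W / c)) = 4 * HW W := by
          field_simp
          ring
        rw [h8] at h7
        linarith
      have h6 : 1 < nW W ρ := by exact_mod_cast h5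
      obtain ⟨x, hx, hx0⟩ := Finset.exists_mem_ne h6 0
      rw [Finset.mem_filter] at hx
      obtain ⟨h7, h8⟩ := line_of hHB ρ hx.1 hx.2 hx0
      exact (hl _ h7).trans (h8.trans h3)
    -- the second minimum
    set u : ℝ := max (2 * D * HW W / (c * l.mulHeight)) (2 * r) with hu
    have hu1 : 1 ≤ u := le_trans (by linarith) (le_max_right _ _)
    obtain ⟨ρ, h1, h2, h3⟩ := ex_pow (dg K) dg_pos u hu1
    have h4 := hlow W hW ρ h1
    have h5 := real_ineq hc0 hH ha (by linarith : 0 < D) (le_max_left _ _) (le_max_right _ _) h2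
    have h6 : ∃ x ∈ bx K m ρ, x ∈ W ∧ ∀ t : K, x ≠ t • l.rep := by
      by_contra hcon
      push Not at hcon
      have h7 := few hREP (W := W) l ρ h1 hcon
      linarith
    obtain ⟨x, hx1, hx2, hx3⟩ := h6
    have hx0 : x ≠ 0 := by
      intro h
      apply hx3 0
      rw [h, zero_smul]
    obtain ⟨h7, h8⟩ := line_of hHB ρ hx1 hx2 hx0
    refine ⟨l, Projectivization.mk K x hx0, fun h => ?_, hlW, h7, ?_⟩
    · obtain ⟨a, ha0, ha'⟩ := rep_mul hx0
      apply hx3 a⁻¹
      rw [h, ha', smul_smul, inv_mul_cancel₀ ha0, one_smul]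
    · calc l.mulHeight * (Projectivization.mk K x hx0).mulHeight ≤ l.mulHeight * (E * u) := by
            gcongr
            exact h8.trans h3
        _ ≤ l.mulHeight * (E * (2 * D * HW W / (c * l.mulHeight) + 2 * r)) := by
            have : u ≤ 2 * D * HW W / (c * l.mulHeight) + 2 * r := by
              refine max_le ?_ ?_
              · linarith
              · have : 0 ≤ 2 * D * HW W / (c * l.mulHeight) := by positivity
                linarith
            gcongr
        _ = E * (2 * D / c) * HW W + E * (2 * r) * l.mulHeight := by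
            field_simp
        _ ≤ E * (2 * D / c) * HW W + E * (2 * r) * (E * (2 * r)) := by gcongr
        _ = E * (2 * D / c) * HW W + E * (2 * (2 * E)) * r ^ 2 := by ring
        _ = C3 * HW W := by
            rw [hr2, hC3]
            ring
  obtain ⟨C5, hC5⟩ : ∃ C5 : ℝ, C5 = (cM : ℝ) ^ dg K * (E * (C3 + 1)) := ⟨_, rfl⟩
  have hC50 : 0 ≤ C5 := by
    rw [hC5]
    positivity
  refine ⟨CV + C4 + C3 + C5, by linarith, fun W hW => ?_⟩
  have hH1 := one_le_HW W
  have hH : 0 < HW W := by linarith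
  obtain ⟨l, l', hne, hl, hl', hh⟩ := main W hW
  refine ⟨hH1, ?_, (hV W hW).2.trans (by linarith), ⟨l, l', hne, hl, hl', hh.trans ?_⟩, ?_, ?_⟩
  · refine le_trans ?_ (hV W hW).1
    exact one_div_le_one_div_of_le (by linarith) (by linarith)
  · gcongr
    linarith
  · intro p p' h1 h2 h3
    refine (hup W hW p p' h1 h2 h3).trans ?_
    have h4 := p.mulHeight_pos
    have h5 := p'.mulHeight_pos
    gcongr
    linarith
  · intro a ha0 ha
    have k1 := ha l hl
    have k2 := ha l' hl'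
    have p1 := l.mulHeight_pos
    have p2 := l'.mulHeight_pos
    have q1 := l.one_le_mulHeight
    -- both heights are at most `u`
    set u : ℝ := (C3 + 1) * HW W / a with hu
    have b1 : l.mulHeight ≤ u := by
      rw [hu, le_div_iff₀ ha0]
      calc l.mulHeight * a ≤ l.mulHeight * l'.mulHeight := by gcongr
        _ ≤ C3 * HW W := hh
        _ ≤ (C3 + 1) * HW W := by gcongr; linarith
    have b2 : l'.mulHeight ≤ u := by
      rw [hu, le_div_iff₀ ha0]
      calc l'.mulHeight * a ≤ l'.mulHeight * l.mulHeight := by gcongr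
        _ = l.mulHeight * l'.mulHeight := mul_comm _ _
        _ ≤ C3 * HW W := hh
        _ ≤ (C3 + 1) * HW W := by gcongr; linarith
    obtain ⟨B, hB1, hB2, hB3⟩ := ex_pow (dg K) dg_pos u (q1.trans b1)
    obtain ⟨t, ht0, ht⟩ := hM m l.rep l.rep_nonzero B hB1 (by rw [height_rep]; exact b1.trans hB2)
    obtain ⟨t', ht0', ht'⟩ := hM m l'.rep l'.rep_nonzero B hB1
      (by rw [height_rep]; exact b2.trans hB2)
    refine ⟨cM * B, Nat.one_le_iff_ne_zero.2 (by positivity), ?_, ?_⟩
    · have hind : LinearIndependent K ![t • l.rep, t' • l'.rep] := by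
        have h1 := (indep hne).units_smul ![Units.mk0 t ht0, Units.mk0 t' ht0']
        have h2 : (![Units.mk0 t ht0, Units.mk0 t' ht0'] • ![l.rep, l'.rep] : Fin 2 → Fin m → K) =
            ![t • l.rep, t' • l'.rep] := by
          funext i
          fin_cases i <;> rfl
        rwa [h2] at h1
      have h3 := span_finrank hind
      have h4 : Submodule.span K {t • l.rep, t' • l'.rep} ≤ W := by
        rw [Submodule.span_le]
        rintro x (rfl | rfl)
        · exact W.smul_mem _ hl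
        · exact W.smul_mem _ hl'
      have h5 : Submodule.span K {t • l.rep, t' • l'.rep} = W :=
        Submodule.eq_of_le_of_finrank_eq h4 (by rw [h3, hW])
      conv_lhs => rw [← h5]
      refine Submodule.span_mono ?_
      rintro x (rfl | rfl)
      · exact ⟨W.smul_mem _ hl, ht⟩
      · exact ⟨W.smul_mem _ hl', ht'⟩
    · push_cast
      rw [mul_pow]
      calc (cM : ℝ) ^ dg K * (B : ℝ) ^ dg K ≤ (cM : ℝ) ^ dg K * (E * u) := by gcongr
        _ = C5 * HW W / a := by
            rw [hC5, hu]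
            ring
        _ ≤ (CV + C4 + C3 + C5) * HW W / a := by
            gcongr
            linarith

end Pool.Agent.Q237.GM
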